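import Pool.Agent.H470R3.StrongDecomp

set_option autoImplicit false

/-!
# Large `k`-arc-strong semicomplete digraphs have a strong `k`-decomposition

This answers Q2 (Bang-Jensen and Yeo) in the affirmative, for every `k ≥ 1`.
-/

open Pool.Agent.H470R3 Finset in
/-- For every `k ≥ 1` there is `N` such that every `k`-arc-strong semicomplete digraph on at least
`N` vertices has its arc set partitioned into `k` classes each of which is strongly connected on
all vertices (class `i` consists of the arcs `a b` with `f a b = i`). -/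
theorem Pool.Agent.Results.MP_44ed1d_co.LargeSemicomplete.result :
    ∀ k : ℕ, 1 ≤ k → ∃ N : ℕ, ∀ (V : Type) [Fintype V] (D : Digraph V),
      N ≤ Fintype.card V →
      (∀ v, ¬ D.Adj v v) →
      (∀ u v, u ≠ v → (D.Adj u v ∨ D.Adj v u)) →
      (∀ S : Finset (V × V), S.card ≤ k - 1 →
        ∀ u v, Relation.ReflTransGen (fun a b => D.Adj a b ∧ (a, b) ∉ S) u v) →
      ∃ f : V → V → Fin k, ∀ i : Fin k, ∀ u v,
        Relation.ReflTransGen (fun a b => D.Adj a b ∧ f a b = i) u v := by
  intro k hk
  obtain ⟨N, hN⟩ := main_cut hk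
  refine ⟨N, ?_⟩
  intro V _ D hcard _ hsemi hstrong
  classical
  obtain ⟨f, hf⟩ := hN V D.Adj hcard hsemi (by
    intro A hA U hU hU'
    by_contra hlt
    push Not at hlt
    have hpath := hstrong (cut Prod.fst Prod.snd A U) (by omega)
    obtain ⟨u, hu⟩ := hU
    have hex : ∃ v, v ∉ U := by
      by_contra hcon
      push Not at hcon
      exact hU' (eq_univ_iff_forall.2 hcon)
    obtain ⟨v, hv⟩ := hex
    have hstay : ∀ w, Relation.ReflTransGen
        (fun a b => D.Adj a b ∧ (a, b) ∉ cut Prod.fst Prod.snd A U) u w → w ∈ U := by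
      intro w hw
      induction hw with
      | refl => exact hu
      | tail _ hbc ih =>
        by_contra hcon
        exact hbc.2 (mem_cut.2 ⟨(hA _).2 hbc.1, ih, hcon⟩)
    exact hv (hstay v (hpath u v)))
  refine ⟨fun a b => f (a, b), fun i u v => ?_⟩
  let R : Finset V := univ.filter fun w =>
    Relation.ReflTransGen (fun a b => D.Adj a b ∧ f (a, b) = i) u w
  have hR : ∀ w, w ∈ R ↔ Relation.ReflTransGen (fun a b => D.Adj a b ∧ f (a, b) = i) u w :=
    fun w => by simp [R]
  have huniv : R = univ := by
    by_contra hne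
    obtain ⟨e, h1, h2, h3, h4⟩ := hf i R ⟨u, (hR u).2 Relation.ReflTransGen.refl⟩ hne
    rw [hR] at h3 h4
    exact h4 (h3.tail ⟨h1, h2⟩)
  have : v ∈ R := by rw [huniv]; exact mem_univ v
  exact (hR v).1 this
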